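import Pool.Agent.Q107.Cater.Main

/-!
# `Γ_b - α_bn` is unbounded on trees

For every `M ≥ 1` there is a tree (a caterpillar) on `12 M` vertices with upper broadcast domination
number at least `10 M` and boundary independence number at most `8 M + 2`.

Definitions (`Pool.Agent.Q107.Broadcast.Defs`): `ecc`, `IsBroadcast`, `Hears`, `IsDominating`,
`IsMinDominating`, `upperBroadcastNum` (this is `Γ_b`) and `IsBnIndep`.

The tree is a path with `8 M` vertices with a leaf attached at every position that is `0, 3, 4` or
`7` modulo `8`.  The broadcast with value `5` at the leaves in the positions `3, 4` modulo `8` is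
minimal dominating.  For the upper bound every broadcasting vertex `v` of a bn-independent broadcast
gets the edges in its ball; a leaf edge counts twice, and three extra units are available at either
end.  The edge sets of different balls are disjoint and a ball of radius `r` has at least `2 r`
units.
-/

set_option autoImplicit false

namespace Pool.Agent.Results.MP_4edf50_co.Unbounded

open Q107.Broadcast

/-- The boundary independence number `α_bn(G)`: the maximum weight of a bn-independent
broadcast. -/
noncomputable def bnIndepNum {V : Type} [Fintype V] (G : SimpleGraph V) : ℕ :=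
  sSup {k | ∃ f : V → ℕ, IsBroadcast G f ∧ IsBnIndep G f ∧ ∑ v, f v = k}

/-- **Disproof of Q1.** (1) For every `C` there is a tree `T` with `Γ_b(T) > α_bn(T) + C`.
(2) More precisely, for every `M ≥ 1` there is a tree on `12 M` vertices with `Γ_b(T) ≥ 10 M` and
`α_bn(T) ≤ 8 M + 2`. -/
theorem result :
    (∀ C : ℕ, ∃ (V : Type) (_ : Fintype V) (T : SimpleGraph V), T.IsTree ∧
      bnIndepNum T + C < upperBroadcastNum T) ∧
    ∀ M : ℕ, 1 ≤ M → ∃ (V : Type) (_ : Fintype V) (T : SimpleGraph V), T.IsTree ∧
      Fintype.card V = 12 * M ∧ 10 * M ≤ upperBroadcastNum T ∧ bnIndepNum T ≤ 8 * M + 2 := by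
  have main : ∀ M : ℕ, 1 ≤ M → ∃ (V : Type) (_ : Fintype V) (T : SimpleGraph V), T.IsTree ∧
      Fintype.card V = 12 * M ∧ 10 * M ≤ upperBroadcastNum T ∧ bnIndepNum T ≤ 8 * M + 2 := by
    intro M hM
    refine ⟨Q107.Cater.Vx M, inferInstance, Q107.Cater.cat M, Q107.Cater.cat_isTree hM, ?_, ?_, ?_⟩
    · rw [Fintype.card_sum, Fintype.card_fin, Fintype.card_fin]
      omega
    · rw [← Q107.Cater.sum_bc M]
      exact le_upper Q107.Cater.bc_min
    · apply csSup_le
      · refine ⟨0, fun _ => 0, fun _ => Nat.zero_le _, ?_, by simp⟩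
        intro u v hu
        simp at hu
      · rintro k ⟨f, h1, h2, rfl⟩
        exact Q107.Cater.bn_le hM h1 h2
  refine ⟨fun C => ?_, main⟩
  obtain ⟨V, i, T, h1, _, h2, h3⟩ := main (C + 2) (by omega)
  exact ⟨V, i, T, h1, by omega⟩

end Pool.Agent.Results.MP_4edf50_co.Unbounded
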